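import Pool.Agent.MP_ffd2af_nt.Main

set_option autoImplicit false

namespace Pool.Agent.Results.MP_ffd2af_nt.NoPerfectPower

/-- For every `n > 4` the number `a(n) = ∑_{i=1}^n (i!)^((n-i+1)!)` is not a perfect power. -/
theorem result (n : ℕ) (hn : 4 < n) :
    ¬ ∃ b e : ℕ, 1 < b ∧ 1 < e ∧
      (∑ i ∈ Finset.Icc 1 n, (Nat.factorial i) ^ (Nat.factorial (n - i + 1))) = b ^ e := by
  rintro ⟨b, e, hb, he, h⟩
  have hq : (e.minFac).Prime := Nat.minFac_prime (by omega)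
  obtain ⟨f, hf⟩ := Nat.minFac_dvd e
  have hf0 : f ≠ 0 := by
    rintro rfl
    simp at hf
    omega
  have hB : 2 ≤ b ^ f := Nat.le_self_pow hf0 b |>.trans' hb
  refine Pool.Agent.MP_ffd2af_nt.no_prime_power n e.minFac (b ^ f) hn hq hB ?_
  rw [← pow_mul, mul_comm f, ← hf]
  exact h

end Pool.Agent.Results.MP_ffd2af_nt.NoPerfectPower
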